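import Mathlib

/-! Girth at least five from the absence of triangles and four-cycles, and a checker for
dynamic-programming certificates of non-three-colourability. -/

set_option autoImplicit false

namespace Pool.Agent.B3509

theorem five_le_egirth {V : Type*} (G : SimpleGraph V)
    (h3 : ∀ a b c, G.Adj a b → G.Adj b c → ¬ G.Adj c a)
    (h4 : ∀ a b c d, a ≠ c → b ≠ d → G.Adj a b → G.Adj b c → G.Adj c d → ¬ G.Adj d a) :
    5 ≤ G.egirth := by
  rw [SimpleGraph.le_egirth]
  intro a w hw
  have hlen : 5 ≤ w.length := by
    by_contra hlt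
    push Not at hlt
    have h3' := hw.three_le_length
    cases w with
    | nil => simp at h3'
    | cons h1 p =>
      cases p with
      | nil => simp at h3'
      | cons h2 q =>
        cases q with
        | nil => simp at h3'
        | cons h3'' r =>
          cases r with
          | nil => exact h3 _ _ _ h1 h2 h3''
          | cons h4' s =>
            cases s with
            | nil =>
              have hnd := hw.support_nodup
              simp only [SimpleGraph.Walk.support_cons, SimpleGraph.Walk.support_nil,
                List.tail_cons, List.nodup_cons, List.mem_cons, List.not_mem_nil,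
                or_false, not_or] at hnd
              refine h4 _ _ _ _ ?_ ?_ h1 h2 h3'' h4'
              · exact fun h => hnd.2.1.2 h.symm
              · exact hnd.1.2.1
            | cons h5 t =>
              simp only [SimpleGraph.Walk.length_cons] at hlt
              omega
  exact_mod_cast hlen

/-- a constraint: three vertices and a table of the allowed colour triples -/
abbrev Con := ℕ × ℕ × ℕ × ℕ

/-- the colouring `c` satisfies the constraint -/
def Holds (c : ℕ → ℕ) (k : Con) : Prop :=
  k.2.2.2.testBit (c k.1 + 3 * c k.2.1 + 9 * c k.2.2.1) = true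

/-- a row of the certificate: the vertex `i` that is eliminated, three further vertices, the table
`T` of the derived constraint, the positions `e` of neighbours of `i` among the three vertices, a
flag `s` saying that `i` is a neighbour of the apex, and the constraints used. -/
structure Row where
  i : ℕ
  f0 : ℕ
  f1 : ℕ
  f2 : ℕ
  T : ℕ
  e : List ℕ
  s : Bool
  ch : List (Con × ℕ × ℕ × ℕ)

/-- the four vertices of a row, by position -/
def pick (a t0 t1 t2 p : ℕ) : ℕ :=
  match p with
  | 0 => a
  | 1 => t0
  | 2 => t1
  | _ => t2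

/-- the derived constraint of a row -/
def Row.con (r : Row) : Con := (r.f0, r.f1, r.f2, r.T)

/-- the part of the check that looks at the colours -/
def Row.test (r : Row) (a t0 t1 t2 : ℕ) : Bool :=
  (r.T.testBit (t0 + 3 * t1 + 9 * t2)) ||
  !(r.e.all (fun p => !(Nat.beq a (pick a t0 t1 t2 p))) &&
    (!r.s || !(Nat.beq a 2)) &&
    r.ch.all (fun k => k.1.2.2.2.testBit
      (pick a t0 t1 t2 k.2.1 + 3 * pick a t0 t1 t2 k.2.2.1 + 9 * pick a t0 t1 t2 k.2.2.2)))

/-- the whole check of a row, with `adj` the adjacency test, `v` the apex and `der` the constraints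
derived before -/
def Row.ok (adj : ℕ → ℕ → Bool) (v : ℕ) (der : List Con) (r : Row) : Bool :=
  r.e.all (fun p => adj r.i (pick r.i r.f0 r.f1 r.f2 p)) &&
  (!r.s || adj r.i v) &&
  r.ch.all (fun k => der.contains k.1 &&
    Nat.beq k.1.1 (pick r.i r.f0 r.f1 r.f2 k.2.1) &&
    Nat.beq k.1.2.1 (pick r.i r.f0 r.f1 r.f2 k.2.2.1) &&
    Nat.beq k.1.2.2.1 (pick r.i r.f0 r.f1 r.f2 k.2.2.2)) &&
  [0, 1, 2].all (fun a => [0, 1, 2].all (fun t0 => [0, 1, 2].all (fun t1 =>
    [0, 1, 2].all (fun t2 => r.test a t0 t1 t2))))

/-- the check of a certificate: all rows are correct and a constraint with empty table appears -/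
def chk (adj : ℕ → ℕ → Bool) (v : ℕ) : List Row → List Con → Bool
  | [], der => der.any (fun k => Nat.beq k.2.2.2 0)
  | r :: rs, der => r.ok adj v der && chk adj v rs (r.con :: der)

theorem pick_map (c : ℕ → ℕ) (a t0 t1 t2 p : ℕ) :
    pick (c a) (c t0) (c t1) (c t2) p = c (pick a t0 t1 t2 p) := by
  unfold pick
  split <;> rfl

theorem row_sound {adj : ℕ → ℕ → Bool} {v : ℕ} {c : ℕ → ℕ} (hc : ∀ x, c x < 3)
    (hv : c v = 2) (hadj : ∀ x y, adj x y = true → c x ≠ c y) {der : List Con}
    (hder : ∀ k ∈ der, Holds c k) {r : Row} (h : r.ok adj v der = true) : Holds c r.con := by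
  unfold Row.ok at h
  simp only [Bool.and_eq_true, List.all_eq_true, Bool.or_eq_true, Bool.not_eq_true'] at h
  obtain ⟨⟨⟨h1, h2⟩, h3⟩, h4⟩ := h
  have hmem : ∀ x, c x ∈ [0, 1, 2] := by
    intro x
    have := hc x
    simp only [List.mem_cons, List.not_mem_nil, or_false]
    omega
  have ht := h4 _ (hmem r.i) _ (hmem r.f0) _ (hmem r.f1) _ (hmem r.f2)
  unfold Row.test at ht
  rw [Bool.or_eq_true] at ht
  rcases ht with ht | ht
  · exact ht
  · exfalso
    rw [Bool.not_eq_true'] at ht
    have : (r.e.all (fun p => !(Nat.beq (c r.i) (pick (c r.i) (c r.f0) (c r.f1) (c r.f2) p))) &&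
      (!r.s || !(Nat.beq (c r.i) 2)) &&
      r.ch.all (fun k => k.1.2.2.2.testBit
        (pick (c r.i) (c r.f0) (c r.f1) (c r.f2) k.2.1 +
          3 * pick (c r.i) (c r.f0) (c r.f1) (c r.f2) k.2.2.1 +
          9 * pick (c r.i) (c r.f0) (c r.f1) (c r.f2) k.2.2.2))) = true := by
      simp only [Bool.and_eq_true, List.all_eq_true, Bool.or_eq_true, Bool.not_eq_true']
      refine ⟨⟨?_, ?_⟩, ?_⟩
      · intro p hp
        rw [pick_map]
        have := hadj _ _ (h1 p hp)
        rw [← Bool.not_eq_true]
        intro hb
        exact this (Nat.eq_of_beq_eq_true hb)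
      · rcases h2 with h2 | h2
        · left; exact h2
        · right
          have := hadj _ _ h2
          rw [hv] at this
          rw [← Bool.not_eq_true]
          intro hb
          exact this (Nat.eq_of_beq_eq_true hb)
      · intro k hk
        have hk' := h3 k hk
        obtain ⟨⟨⟨ha, hb⟩, hc'⟩, hd⟩ := hk'
        have hH := hder k.1 (List.contains_iff_mem.1 ha)
        unfold Holds at hH
        rw [Nat.eq_of_beq_eq_true hb, Nat.eq_of_beq_eq_true hc', Nat.eq_of_beq_eq_true hd] at hH
        rw [pick_map, pick_map, pick_map]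
        exact hH
    rw [this] at ht
    exact absurd ht (by decide)

theorem chk_sound {adj : ℕ → ℕ → Bool} {v : ℕ} {c : ℕ → ℕ} (hc : ∀ x, c x < 3)
    (hv : c v = 2) (hadj : ∀ x y, adj x y = true → c x ≠ c y) :
    ∀ (rs : List Row) (der : List Con), (∀ k ∈ der, Holds c k) → chk adj v rs der = true →
      False := by
  intro rs
  induction rs with
  | nil =>
    intro der hder h
    unfold chk at h
    rw [List.any_eq_true] at h
    obtain ⟨k, hk, hk0⟩ := h
    have hH := hder k hk
    unfold Holds at hH
    rw [Nat.eq_of_beq_eq_true hk0] at hH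
    simp at hH
  | cons r rs ih =>
    intro der hder h
    unfold chk at h
    rw [Bool.and_eq_true] at h
    apply ih (r.con :: der) _ h.2
    intro k hk
    rcases List.mem_cons.1 hk with hk | hk
    · rw [hk]
      exact row_sound hc hv hadj hder h.1
    · exact hder k hk

end Pool.Agent.B3509
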