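import Mathlib

/-! Graphs with an elimination order of width three have no `K₅` minor. -/

set_option autoImplicit false

namespace Pool.Agent.B3509

variable {n : ℕ}

/-- `B` is nonempty and every nonempty part of `B` that is closed under the relation `H` inside `B`
is all of `B`. -/
def CC (H : Fin n → Fin n → Prop) (B : Set (Fin n)) : Prop :=
  B.Nonempty ∧ ∀ A : Set (Fin n), A ⊆ B → A.Nonempty →
    (∀ x ∈ A, ∀ y ∈ B, H x y → y ∈ A) → B ⊆ A

theorem cc_of_connected {G : SimpleGraph (Fin n)} {H : Fin n → Fin n → Prop} {B : Set (Fin n)}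
    (h : (G.induce B).Connected) (hH : ∀ x ∈ B, ∀ y ∈ B, G.Adj x y → H x y) : CC H B := by
  refine ⟨?_, ?_⟩
  · obtain ⟨x⟩ := h.nonempty
    exact ⟨x.1, x.2⟩
  · intro A hAB hA hcl b hb
    obtain ⟨a, ha⟩ := hA
    obtain ⟨w⟩ := h.preconnected ⟨a, hAB ha⟩ ⟨b, hb⟩
    have H' : ∀ (x y : B) (_ : (G.induce B).Walk x y), x.1 ∈ A → y.1 ∈ A := by
      intro x y w
      induction w with
      | nil => exact id
      | @cons u v w hadj _ ih =>
        intro hx
        exact ih (hcl _ hx _ v.2 (hH _ u.2 _ v.2 hadj))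
    exact H' _ _ w ha

/-- a nonempty connected set with a simplicial vertex `k` and another point stays connected when
`k` is removed -/
theorem cc_diff {H : Fin n → Fin n → Prop} (hsymm : ∀ a b, H a b → H b a) {B : Set (Fin n)}
    {k : Fin n} (hk : k ∈ B)
    (hs : ∀ b ∈ B, ∀ c ∈ B, b ≠ k → c ≠ k → b ≠ c → H k b → H k c → H b c)
    {a : Fin n} (ha : a ∈ B) (hak : a ≠ k) (hB : CC H B) : CC H (B \ {k}) := by
  refine ⟨⟨a, ha, hak⟩, ?_⟩
  intro A hAB hA hcl
  have hkA : k ∉ A := fun h => (hAB h).2 rfl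
  by_cases hadj : ∃ x ∈ A, H x k
  · obtain ⟨x, hxA, hxk⟩ := hadj
    have h1 : B ⊆ A ∪ {k} := by
      apply hB.2
      · intro y hy
        rcases hy with hy | hy
        · exact (hAB hy).1
        · rw [Set.mem_singleton_iff.1 hy]; exact hk
      · exact ⟨x, Or.inl hxA⟩
      · intro y hy z hz hyz
        by_cases hzk : z = k
        · right; exact hzk
        · left
          rcases hy with hy | hy
          · exact hcl y hy z ⟨hz, hzk⟩ hyz
          · rw [Set.mem_singleton_iff.1 hy] at hyz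
            by_cases hzx : z = x
            · rw [hzx]; exact hxA
            · exact hcl x hxA z ⟨hz, hzk⟩
                (hs x (hAB hxA).1 z hz (hAB hxA).2 hzk (fun h => hzx h.symm) (hsymm _ _ hxk) hyz)
    intro y hy
    rcases h1 hy.1 with h | h
    · exact h
    · exact absurd h hy.2
  · have h1 : B ⊆ A := by
      apply hB.2 A (fun y hy => (hAB hy).1) hA
      intro x hx y hy hxy
      by_cases hyk : y = k
      · exact absurd ⟨x, hx, hyk ▸ hxy⟩ hadj
      · exact hcl x hx y ⟨hy, hyk⟩ hxy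
    exact absurd (h1 hk) hkA

theorem no_model (H : Fin n → Fin n → Prop) (hsymm : ∀ a b, H a b → H b a)
    (W : Set (Fin n))
    (hsimp : ∀ a ∈ W, ∀ b ∈ W, ∀ c ∈ W, a < b → a < c → b ≠ c → H a b → H a c → H b c)
    (hdeg : ∀ a ∈ W, ∃ f : Fin 3 → Fin n, ∀ b ∈ W, a < b → H a b → ∃ j, b = f j) :
    ∀ m k : ℕ, k + m = n → ¬ ∃ B : Fin 5 → Set (Fin n),
      (∀ i, ∀ x ∈ B i, x ∈ W ∧ k ≤ x.val) ∧ (∀ i, CC H (B i)) ∧
      (∀ i j, i ≠ j → Disjoint (B i) (B j)) ∧
      (∀ i j, i ≠ j → ∃ x ∈ B i, ∃ y ∈ B j, H x y) := by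
  intro m
  induction m with
  | zero =>
    rintro k hk ⟨B, hB, hC, -, -⟩
    obtain ⟨x, hx⟩ := (hC 0).1
    have := (hB 0 x hx).2
    have := x.2
    omega
  | succ m ih =>
    rintro k hk ⟨B, hB, hC, hD, hE⟩
    apply ih (k + 1) (by omega)
    obtain ⟨kk, hkk⟩ : ∃ kk : Fin n, kk.val = k := ⟨⟨k, by omega⟩, rfl⟩
    by_cases hex : ∃ i, kk ∈ B i
    · obtain ⟨i0, hi0⟩ := hex
      have hkW : kk ∈ W := (hB i0 kk hi0).1
      have hlt : ∀ i, ∀ x ∈ B i, x ≠ kk → kk < x := by
        intro i x hx hne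
        have h1 := (hB i x hx).2
        have h2 : x.val ≠ kk.val := fun h => hne (Fin.ext h)
        exact Fin.lt_def.2 (by omega)
      have hnot : ∀ j, j ≠ i0 → kk ∉ B j := by
        intro j hj hmem
        exact Set.disjoint_left.1 (hD j i0 hj) hmem hi0
      have hnb : ∃ a ∈ B i0, a ≠ kk ∧ H kk a := by
        by_contra hno
        push Not at hno
        have hsub : B i0 ⊆ {kk} := by
          apply (hC i0).2 {kk} (by intro y hy; rw [Set.mem_singleton_iff.1 hy]; exact hi0)
            ⟨kk, rfl⟩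
          intro x hx y hy hxy
          rw [Set.mem_singleton_iff.1 hx] at hxy
          by_contra hne
          exact hno y hy hne hxy
        have h1 : ∀ j : {j : Fin 5 // j ≠ i0}, ∃ y ∈ B j.1, H kk y := by
          intro j
          obtain ⟨x, hx, y, hy, hxy⟩ := hE i0 j.1 (fun h => j.2 h.symm)
          have hxk : x = kk := hsub hx
          exact ⟨y, hy, hxk ▸ hxy⟩
        choose y hy hxy using h1
        obtain ⟨f, hf⟩ := hdeg kk hkW
        have h2 : ∀ j : {j : Fin 5 // j ≠ i0}, ∃ t, y j = f t := by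
          intro j
          apply hf (y j) (hB _ _ (hy j)).1 _ (hxy j)
          apply hlt _ _ (hy j)
          intro h
          exact hnot _ j.2 (h ▸ hy j)
        choose g hg using h2
        have hcard : Fintype.card (Fin 3) < Fintype.card {j : Fin 5 // j ≠ i0} := by
          rw [Fintype.card_subtype_compl]
          simp
        obtain ⟨j, j', hjj, hgg⟩ := Fintype.exists_ne_map_eq_of_card_lt g hcard
        have h3 : y j = y j' := by rw [hg j, hg j', hgg]
        have h4 : j.1 ≠ j'.1 := fun h => hjj (Subtype.ext h)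
        exact Set.disjoint_left.1 (hD _ _ h4) (hy j) (h3 ▸ hy j')
      obtain ⟨a, ha, hak, hHa⟩ := hnb
      refine ⟨fun i => B i \ {kk}, ?_, ?_, ?_, ?_⟩
      · rintro i x ⟨hx, hxk⟩
        refine ⟨(hB i x hx).1, ?_⟩
        have := Fin.lt_def.1 (hlt i x hx hxk)
        omega
      · intro i
        by_cases hi : i = i0
        · subst hi
          apply cc_diff hsymm hi0 _ ha hak (hC i)
          intro b hb c hc hbk hck hbc h1 h2
          exact hsimp kk hkW b (hB _ _ hb).1 c (hB _ _ hc).1 (hlt _ _ hb hbk) (hlt _ _ hc hck)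
            hbc h1 h2
        · have : B i \ {kk} = B i := Set.sdiff_singleton_eq_self (hnot i hi)
          show CC H (B i \ {kk})
          rw [this]
          exact hC i
      · intro i j hij
        exact (hD i j hij).mono Set.sdiff_subset Set.sdiff_subset
      · have main : ∀ i j, i ≠ j → ∀ x ∈ B i, ∀ y ∈ B j, H x y →
            ∃ x ∈ B i \ {kk}, ∃ y ∈ B j \ {kk}, H x y := by
          intro i j hij x hx y hy hxy
          by_cases hxk : x = kk
          · have hii : i = i0 := by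
              by_contra h
              exact hnot i h (hxk ▸ hx)
            have hjj : j ≠ i0 := fun h => hij (hii.trans h.symm)
            have hyk : y ≠ kk := fun h => hnot j hjj (h ▸ hy)
            refine ⟨a, ⟨hii ▸ ha, hak⟩, y, ⟨hy, hyk⟩, ?_⟩
            have hay : a ≠ y := by
              intro h
              exact Set.disjoint_left.1 (hD i0 j (fun h => hjj h.symm)) ha (h ▸ hy)
            exact hsimp kk hkW a (hB _ _ ha).1 y (hB _ _ hy).1 (hlt _ _ ha hak)
              (hlt _ _ hy hyk) hay hHa (hxk ▸ hxy)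
          · by_cases hyk : y = kk
            · have hjj : j = i0 := by
                by_contra h
                exact hnot j h (hyk ▸ hy)
              have hii : i ≠ i0 := fun h => hij (h.trans hjj.symm)
              refine ⟨x, ⟨hx, hxk⟩, a, ⟨hjj ▸ ha, hak⟩, ?_⟩
              have hax : a ≠ x := by
                intro h
                exact Set.disjoint_left.1 (hD i0 i (fun h => hii h.symm)) ha (h ▸ hx)
              exact hsymm _ _ (hsimp kk hkW a (hB _ _ ha).1 x (hB _ _ hx).1 (hlt _ _ ha hak)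
                (hlt _ _ hx hxk) hax hHa (hsymm _ _ (hyk ▸ hxy)))
            · exact ⟨x, ⟨hx, hxk⟩, y, ⟨hy, hyk⟩, hxy⟩
        intro i j hij
        obtain ⟨x, hx, y, hy, hxy⟩ := hE i j hij
        exact main i j hij x hx y hy hxy
    · refine ⟨B, ?_, hC, hD, hE⟩
      intro i x hx
      refine ⟨(hB i x hx).1, ?_⟩
      have h1 := (hB i x hx).2
      have h2 : x.val ≠ kk.val := fun h => hex ⟨i, (Fin.ext h : x = kk) ▸ hx⟩
      omega

/-- A graph whose vertices other than `v` have an elimination order of width three has no `K₅`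
minor avoiding `v`. -/
theorem no_K5 (G : SimpleGraph (Fin n)) (v : Fin n) (H : Fin n → Fin n → Prop)
    (hsymm : ∀ a b, H a b → H b a)
    (hGH : ∀ a b, a ≠ v → b ≠ v → G.Adj a b → H a b)
    (hsimp : ∀ a b c, a ≠ v → b ≠ v → c ≠ v → a < b → a < c → b ≠ c → H a b → H a c → H b c)
    (hdeg : ∀ a, a ≠ v → ∃ f : Fin 3 → Fin n, ∀ b, b ≠ v → a < b → H a b → ∃ j, b = f j) :
    ¬ ∃ B : Fin 5 → Set (Fin n),
      (∀ i, v ∉ B i) ∧
      (∀ i, (G.induce (B i)).Connected) ∧
      (∀ i j, i ≠ j → Disjoint (B i) (B j)) ∧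
      (∀ i j, i ≠ j → ∃ x ∈ B i, ∃ y ∈ B j, G.Adj x y) := by
  rintro ⟨B, hv, hC, hD, hE⟩
  have hne : ∀ i, ∀ x ∈ B i, x ≠ v := fun i x hx h => hv i (h ▸ hx)
  apply no_model H hsymm {x | x ≠ v}
    (fun a ha b hb c hc => hsimp a b c ha hb hc) (fun a ha => hdeg a ha) n 0 (by omega)
  refine ⟨B, fun i x hx => ⟨hne i x hx, Nat.zero_le _⟩, ?_, hD, ?_⟩
  · intro i
    exact cc_of_connected (hC i)
      (fun x hx y hy hxy => hGH x y (hne i x hx) (hne i y hy) hxy)
  · intro i j hij
    obtain ⟨x, hx, y, hy, hxy⟩ := hE i j hij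
    exact ⟨x, hx, y, hy, hGH x y (hne i x hx) (hne j y hy) hxy⟩

/-- If no `K₅` minor avoids `v` then there is no `K₆` minor. -/
theorem no_K6 (G : SimpleGraph (Fin n)) (v : Fin n)
    (h5 : ¬ ∃ B : Fin 5 → Set (Fin n),
      (∀ i, v ∉ B i) ∧
      (∀ i, (G.induce (B i)).Connected) ∧
      (∀ i j, i ≠ j → Disjoint (B i) (B j)) ∧
      (∀ i j, i ≠ j → ∃ x ∈ B i, ∃ y ∈ B j, G.Adj x y)) :
    ¬ ∃ B : Fin 6 → Set (Fin n),
      (∀ i, (G.induce (B i)).Connected) ∧
      (∀ i j, i ≠ j → Disjoint (B i) (B j)) ∧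
      (∀ i j, i ≠ j → ∃ x ∈ B i, ∃ y ∈ B j, G.Adj x y) := by
  rintro ⟨B, hC, hD, hE⟩
  apply h5
  have hex : ∃ i0 : Fin 6, ∀ i, i ≠ i0 → v ∉ B i := by
    by_cases h : ∃ i0, v ∈ B i0
    · obtain ⟨i0, hi0⟩ := h
      exact ⟨i0, fun i hi hmem => Set.disjoint_left.1 (hD i i0 hi) hmem hi0⟩
    · exact ⟨0, fun i _ hmem => h ⟨i, hmem⟩⟩
  obtain ⟨i0, hi0⟩ := hex
  refine ⟨fun i => B (i0.succAbove i), ?_, ?_, ?_, ?_⟩
  · intro i
    exact hi0 _ (Fin.succAbove_ne i0 i)
  · intro i
    exact hC _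
  · intro i j hij
    exact hD _ _ (fun h => hij (Fin.succAbove_right_injective h))
  · intro i j hij
    exact hE _ _ (fun h => hij (Fin.succAbove_right_injective h))

end Pool.Agent.B3509
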