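import Pool.Agent.B3509.Data
import Pool.Agent.B3509.Minor

/-! The graph on 166 vertices: no `K₅` minor avoiding the apex, girth at least five, and no proper
colouring with three colours. -/

set_option autoImplicit false
set_option maxRecDepth 100000

namespace Pool.Agent.B3509

open D

theorem adj_symm : ∀ i j : Fin 166, adj i j = true → adj j i = true := by decide +kernel

theorem adj_irrefl : ∀ i : Fin 166, ¬ adj i i = true := by decide +kernel

/-- the graph -/
def G : SimpleGraph (Fin 166) where
  Adj i j := adj i j = true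
  symm := ⟨fun i j h => adj_symm i j h⟩
  loopless := ⟨fun i h => adj_irrefl i h⟩

/-- the apex -/
def v : Fin 166 := 165

/-! ### colouring -/

/-- adjacency restricted to the vertices below 166 -/
def adj' (i j : ℕ) : Bool := decide (i < 166) && decide (j < 166) && adj i j

theorem chk_rows' : chk adj' 165 rows [] = true := by decide +kernel

theorem not_colorable : ¬ G.Colorable 3 := by
  rintro ⟨C⟩
  -- recolour so that the apex has colour two
  obtain ⟨σ, hσ⟩ : ∃ σ : Equiv.Perm (Fin 3), σ (C v) = 2 := ⟨Equiv.swap (C v) 2, by simp⟩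
  let c : ℕ → ℕ := fun x => if h : x < 166 then (σ (C ⟨x, h⟩)).val else 0
  have hc : ∀ x, c x < 3 := by
    intro x
    by_cases h : x < 166
    · simp only [c, h, dif_pos]; exact (σ (C ⟨x, h⟩)).2
    · simp only [c, h, dif_neg, not_false_iff]; omega
  have hv : c 165 = 2 := by
    have h : (165 : ℕ) < 166 := by norm_num
    simp only [c, h, dif_pos]
    have : (⟨165, h⟩ : Fin 166) = v := rfl
    rw [this, hσ]
    rfl
  have hadj : ∀ x y, adj' x y = true → c x ≠ c y := by
    intro x y hxy
    unfold adj' at hxy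
    simp only [Bool.and_eq_true, decide_eq_true_eq] at hxy
    obtain ⟨⟨hx, hy⟩, h⟩ := hxy
    simp only [c, hx, hy, dif_pos]
    intro heq
    have h1 : σ (C ⟨x, hx⟩) = σ (C ⟨y, hy⟩) := Fin.ext heq
    have h2 : C ⟨x, hx⟩ = C ⟨y, hy⟩ := σ.injective h1
    have h3 : G.Adj ⟨x, hx⟩ ⟨y, hy⟩ := h
    exact C.valid h3 h2
  exact chk_sound hc hv hadj rows [] (by simp) chk_rows'

/-! ### girth -/

/-- the row of the adjacency matrix -/
def rowN (i : ℕ) : ℕ := (matrix >>> (166 * i)) % 2 ^ 166

theorem testBit_rowN (i j : ℕ) (hj : j < 166) : (rowN i).testBit j = adj i j := by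
  unfold rowN adj
  rw [Nat.testBit_mod_two_pow, Nat.testBit_shiftRight]
  simp [hj]

/-- the rows of two vertices have at most one common digit, and none if they are adjacent -/
def pairOK (i j : ℕ) : Bool :=
  let A := rowN i &&& rowN j
  Nat.beq A 0 || (Nat.beq A (2 ^ A.log2) && !(adj i j))

theorem pairs_ok : ∀ i j : Fin 166, i < j → pairOK i j = true := by decide +kernel

theorem common_unique' {i j x y : Fin 166} (hij : i < j) (hix : G.Adj i x) (hjx : G.Adj j x)
    (hiy : G.Adj i y) (hjy : G.Adj j y) : x = y ∧ ¬ G.Adj i j := by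
  have h := pairs_ok i j hij
  unfold pairOK at h
  simp only at h
  have hbit : ∀ z : Fin 166, G.Adj i z → G.Adj j z → (rowN i &&& rowN j).testBit z = true := by
    intro z h1 h2
    rw [Nat.testBit_and, testBit_rowN _ _ z.2, testBit_rowN _ _ z.2]
    have h1' : adj i z = true := h1
    have h2' : adj j z = true := h2
    rw [h1', h2']
    rfl
  have hx := hbit x hix hjx
  have hy := hbit y hiy hjy
  rw [Bool.or_eq_true] at h
  rcases h with h | h
  · rw [Nat.eq_of_beq_eq_true h] at hx
    simp at hx
  · rw [Bool.and_eq_true] at h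
    obtain ⟨h1, h2⟩ := h
    have h1' := Nat.eq_of_beq_eq_true h1
    rw [h1', Nat.testBit_two_pow] at hx hy
    refine ⟨Fin.ext ?_, ?_⟩
    · have hx' := of_decide_eq_true hx
      have hy' := of_decide_eq_true hy
      omega
    · intro hadj
      have h3 : adj i j = true := hadj
      rw [h3] at h2
      exact absurd h2 (by decide)

theorem common_unique {i j x y : Fin 166} (hij : i ≠ j) (hix : G.Adj i x) (hjx : G.Adj j x)
    (hiy : G.Adj i y) (hjy : G.Adj j y) : x = y ∧ ¬ G.Adj i j := by
  rcases lt_or_gt_of_ne hij with h | h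
  · exact common_unique' h hix hjx hiy hjy
  · obtain ⟨h1, h2⟩ := common_unique' h hjx hix hjy hiy
    exact ⟨h1, fun h3 => h2 h3.symm⟩

theorem girth : 5 ≤ G.egirth := by
  apply five_le_egirth
  · intro a b c hab hbc hca
    have h := common_unique (i := a) (j := b) (x := c) (y := c) hab.ne hca.symm hbc hca.symm hbc
    exact h.2 hab
  · intro a b c d hac hbd hab hbc hcd hda
    have h := common_unique (i := a) (j := c) (x := b) (y := d) hac hab hbc.symm hda.symm hcd
    exact hbd h.1

/-! ### minors -/

/-- `j` is one of the three later vertices of `i` -/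
def hB (i j : ℕ) : Bool := Nat.beq j (fa i) || Nat.beq j (fb i) || Nat.beq j (fc i)

theorem fills_later : ∀ i : Fin 166, i ≠ 165 →
    (i.val < fa i ∧ i.val < fb i ∧ i.val < fc i ∧ fa i < 166 ∧ fb i < 166 ∧ fc i < 166 ∧
      fa i ≤ fb i ∧ fb i ≤ fc i ∧
      (fa i = fb i ∨ fb i = 165 ∨ hB (fa i) (fb i) = true) ∧
      (fa i = fc i ∨ fc i = 165 ∨ hB (fa i) (fc i) = true) ∧
      (fb i = fc i ∨ fc i = 165 ∨ hB (fb i) (fc i) = true)) := by decide +kernel

theorem adj_fills : ∀ i j : Fin 166, i ≠ 165 → j ≠ 165 → i < j → adj i j = true →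
    hB i j = true := by decide +kernel

/-- the filled graph -/
def H (i j : Fin 166) : Prop := (i < j ∧ hB i j = true) ∨ (j < i ∧ hB j i = true)

theorem hB_iff (i j : ℕ) : hB i j = true ↔ j = fa i ∨ j = fb i ∨ j = fc i := by
  unfold hB
  simp only [Bool.or_eq_true, or_assoc, Nat.beq_eq]

theorem no_K5_G : ¬ ∃ B : Fin 5 → Set (Fin 166),
      (∀ i, v ∉ B i) ∧
      (∀ i, (G.induce (B i)).Connected) ∧
      (∀ i j, i ≠ j → Disjoint (B i) (B j)) ∧
      (∀ i j, i ≠ j → ∃ x ∈ B i, ∃ y ∈ B j, G.Adj x y) := by
  apply no_K5 G v H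
  · intro a b h
    exact h.symm
  · intro a b ha hb hab
    rcases lt_trichotomy a b with h | h | h
    · exact Or.inl ⟨h, adj_fills a b ha hb h hab⟩
    · exact absurd h hab.ne
    · exact Or.inr ⟨h, adj_fills b a hb ha h hab.symm⟩
  · intro a b c ha hb hc hab hac hbc h1 h2
    have h1' : hB a b = true := by
      rcases h1 with h | h
      · exact h.2
      · exact absurd h.1 (not_lt.2 hab.le)
    have h2' : hB a c = true := by
      rcases h2 with h | h
      · exact h.2
      · exact absurd h.1 (not_lt.2 hac.le)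
    rw [hB_iff] at h1' h2'
    obtain ⟨-, -, -, -, -, -, hab', hbc', k1, k2, k3⟩ := fills_later a ha
    have hb' : b.val ≠ 165 := fun h => hb (Fin.ext h)
    have hc' : c.val ≠ 165 := fun h => hc (Fin.ext h)
    have hbc'' : b.val ≠ c.val := fun h => hbc (Fin.ext h)
    have key : ∀ x y : Fin 166, x.val ≤ y.val → x.val ≠ y.val → hB x y = true → H x y :=
      fun x y hxy hne h => Or.inl ⟨Fin.lt_def.2 (lt_of_le_of_ne hxy hne), h⟩
    have key' : ∀ x y : Fin 166, y.val ≤ x.val → x.val ≠ y.val → hB y x = true → H x y :=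
      fun x y hxy hne h => Or.inr ⟨Fin.lt_def.2 (lt_of_le_of_ne hxy (Ne.symm hne)), h⟩
    rcases h1' with e1 | e1 | e1 <;> rcases h2' with e2 | e2 | e2
    · exact absurd (e1.trans e2.symm) hbc''
    · rcases k1 with k | k | k
      · exact absurd (e1.trans (k.trans e2.symm)) hbc''
      · exact absurd (e2.trans k) hc'
      · exact key b c (by omega) hbc'' (by rw [e1, e2]; exact k)
    · rcases k2 with k | k | k
      · exact absurd (e1.trans (k.trans e2.symm)) hbc''
      · exact absurd (e2.trans k) hc'
      · exact key b c (by omega) hbc'' (by rw [e1, e2]; exact k)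
    · rcases k1 with k | k | k
      · exact absurd (e1.trans (k.symm.trans e2.symm)) hbc''
      · exact absurd (e1.trans k) hb'
      · exact key' b c (by omega) hbc'' (by rw [e1, e2]; exact k)
    · exact absurd (e1.trans e2.symm) hbc''
    · rcases k3 with k | k | k
      · exact absurd (e1.trans (k.trans e2.symm)) hbc''
      · exact absurd (e2.trans k) hc'
      · exact key b c (by omega) hbc'' (by rw [e1, e2]; exact k)
    · rcases k2 with k | k | k
      · exact absurd (e1.trans (k.symm.trans e2.symm)) hbc''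
      · exact absurd (e1.trans k) hb'
      · exact key' b c (by omega) hbc'' (by rw [e1, e2]; exact k)
    · rcases k3 with k | k | k
      · exact absurd (e1.trans (k.symm.trans e2.symm)) hbc''
      · exact absurd (e1.trans k) hb'
      · exact key' b c (by omega) hbc'' (by rw [e1, e2]; exact k)
    · exact absurd (e1.trans e2.symm) hbc''
  · intro a ha
    obtain ⟨-, -, -, h1, h2, h3, -⟩ := fills_later a ha
    refine ⟨![⟨fa a, h1⟩, ⟨fb a, h2⟩, ⟨fc a, h3⟩], ?_⟩
    intro b hb hab h
    have h' : hB a b = true := by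
      rcases h with h | h
      · exact h.2
      · exact absurd h.1 (not_lt.2 hab.le)
    rw [hB_iff] at h'
    rcases h' with h' | h' | h'
    · exact ⟨0, Fin.ext h'⟩
    · exact ⟨1, Fin.ext h'⟩
    · exact ⟨2, Fin.ext h'⟩

end Pool.Agent.B3509
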